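import Pool.Agent.Q50.SP.Digits

/-!
# Common linear recurrences of the digits of several algebraic numbers, with errors

Let `ξ_1, …, ξ_J` be real algebraic numbers such that `1, ξ_1, …, ξ_J` are linearly independent
over `ℚ`. We consider the digit matrix with the rows `digit b ξ_j i`, `1 ≤ i ≤ L`, change at most
`k` of its columns arbitrarily, and ask for the least order `m` of a linear recurrence over `ℚ`
which is satisfied by all the rows at the same time (the joint `k`-error linear complexity of the
theory of multisequences). For random digits it is about `J / (J + 1) * L` for every fixed `k`.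

We prove that it is at least `(J / (J + k + 1) - o(1)) L`; for `k = 0` this is the value for random
digits. The case `J = 1` is `MP_0308e6_nt.ErrorComplexity`.

Method: the subspace theorem for the vectors
`(b ^ N q, b ^ (N - n_1) q, …, b ^ (N - n_k) q, b ^ N p_1, …, b ^ N p_J)`, where the `n_i` are the
places of the changed columns and `q` is obtained from the recurrence.
-/

set_option autoImplicit false

namespace Pool.Agent.Results.MP_c8ecb2_nt.JointErrorComplexity

open Finset

/-- the `i`-th digit of `x` after the point in base `b` -/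
noncomputable def digit (b : ℕ) (x : ℝ) (i : ℕ) : ℤ := ⌊x * (b : ℝ) ^ i⌋ % (b : ℤ)

/-- The terms `s_j 1, …, s_j L` of all the sequences `s_j` satisfy one linear recurrence of order
`m` over `ℚ`: `s_j (i+m) = c_0 s_j i + … + c_(m-1) s_j (i+m-1)` for `1 ≤ i ≤ L - m` and all `j`. -/
def CommonRecurrence {J : ℕ} (s : Fin J → ℕ → ℤ) (L m : ℕ) : Prop :=
  ∃ c : ℕ → ℚ, ∀ j, ∀ i : ℕ, 1 ≤ i → i + m ≤ L →
    (s j (i + m) : ℚ) = ∑ l ∈ range m, c l * (s j (i + l) : ℚ)

/-- the joint `k`-error linear complexity of the first `L` digits of the numbers `x j` in base `b`: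
the least order of a common recurrence satisfied by the first `L` terms of sequences of integers
between `-b` and `b` which differ from the sequences of digits in at most `k` of the columns
`1, …, L` -/
noncomputable def jointErrorComplexity {J : ℕ} (b : ℕ) (x : Fin J → ℝ) (k L : ℕ) : ℕ :=
  sInf {m | ∃ s : Fin J → ℕ → ℤ, (∀ j i, |s j i| ≤ b) ∧
    ((Icc 1 L).filter fun i => ∃ j, s j i ≠ digit b (x j) i).card ≤ k ∧ CommonRecurrence s L m}

lemma dig_abs (b : ℕ) (hb : 2 ≤ b) (x : ℝ) (i : ℕ) : |digit b x i| ≤ b := by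
  unfold digit
  have hb0 : (0 : ℤ) < b := by exact_mod_cast (by omega : 0 < b)
  rw [abs_of_nonneg (Int.emod_nonneg _ hb0.ne')]
  exact (Int.emod_lt_of_pos _ hb0).le

/-- the infimum is attained -/
lemma attained {J : ℕ} (b : ℕ) (hb : 2 ≤ b) (x : Fin J → ℝ) (k L : ℕ) :
    ∃ s : Fin J → ℕ → ℤ, (∀ j i, |s j i| ≤ b) ∧
      ((Icc 1 L).filter fun i => ∃ j, s j i ≠ digit b (x j) i).card ≤ k ∧
      CommonRecurrence s L (jointErrorComplexity b x k L) := by
  refine Nat.sInf_mem (s := {m | ∃ s : Fin J → ℕ → ℤ, (∀ j i, |s j i| ≤ b) ∧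
    ((Icc 1 L).filter fun i => ∃ j, s j i ≠ digit b (x j) i).card ≤ k ∧
      CommonRecurrence s L m}) ?_
  exact ⟨L, fun j => digit b (x j), fun j => dig_abs b hb (x j), by simp, fun _ => 0,
    fun j i h1 h2 => by omega⟩

/-- For every base `b ≥ 2`, all real algebraic numbers `ξ_1, …, ξ_J` which are linearly independent
over `ℚ` together with `1`, and every `k`, the joint `k`-error linear complexity of their first `L`
digits in base `b` is at least `(J / (J + k + 1) - ε) L` for all large `L`. -/
theorem result (b : ℕ) (hb : 2 ≤ b) (J : ℕ) (hJ : 1 ≤ J) (ξ : Fin J → ℝ)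
    (halg : ∀ j, IsAlgebraic ℚ (ξ j))
    (hind : ∀ (d : Fin J → ℚ) (c : ℚ), ∑ j, (d j : ℝ) * ξ j = c → d = 0) (k : ℕ) (ε : ℝ)
    (hε : 0 < ε) : ∃ L₀ : ℕ, ∀ L : ℕ, L₀ ≤ L →
      ((J : ℝ) / (J + k + 1) - ε) * L ≤ jointErrorComplexity b ξ k L := by
  obtain ⟨L₀, hL₀⟩ := Pool.Agent.Q50.SP.main b hb J hJ ξ halg hind k ε hε
  refine ⟨L₀, fun L hL => ?_⟩
  obtain ⟨s, hs, hE, c, hc⟩ := attained b hb ξ k L
  exact hL₀ L hL (jointErrorComplexity b ξ k L) (fun j i => s j (i + 1)) (fun j i => hs _ _)
    ⟨((Icc 1 L).filter fun i => ∃ j, s j i ≠ digit b (ξ j) i).image (· - 1),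
      Finset.card_image_le.trans hE, fun i hi hiE j => by
        by_contra hne
        apply hiE
        rw [mem_image]
        exact ⟨i + 1, by
          rw [mem_filter, mem_Icc]
          exact ⟨⟨by omega, by omega⟩, ⟨j, hne⟩⟩, by omega⟩⟩
    ⟨c, fun j i hi => by
      have := hc j (i + 1) (by omega) (by omega)
      rw [show i + jointErrorComplexity b ξ k L + 1 = i + 1 + jointErrorComplexity b ξ k L by ring,
        this]
      refine Finset.sum_congr rfl fun l _ => ?_
      rw [show i + l + 1 = i + 1 + l by ring]⟩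

end Pool.Agent.Results.MP_c8ecb2_nt.JointErrorComplexity
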