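import Pool.Agent.Q50.SP.SimulSums

/-!
# The digits of all multiples of a tuple of real algebraic numbers

Let `ξ_1, …, ξ_J` be real algebraic numbers which are linearly independent over `ℚ` together with
`1`.

(1) Let `b ≥ 2`, `k` and `δ > 0` be given. For ALL `q ≥ 1` and ALL places `s`, with `s + log q`
large, there is an `i` such that the digit of `q ξ_i` in base `b` changes more than `k` times
between the place `s` and the place `(1 + δ) s + (1 / J + δ) log_b q`. The bound depends only on the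
`ξ_i`, `b`, `k` and `δ`. The factor `1 / J` is best possible by Dirichlet's theorem on simultaneous
approximation: for infinitely many `q` the first `(1 / J) log_b q - O(1)` columns of the `J × ∞`
matrix of the digits of `(q ξ_1, …, q ξ_J)` are all the same up to bounded terms (all entries in
each row are `0` or all are `b - 1`).

(2) The same for sums in several bases `β_1, …, β_r` and for the products of the tuple with
arbitrary products `u` of powers of the bases: for all large `N` and all `q ≥ 1` and `u` with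
`δ log u + (1 / J + δ) log q ≤ N`, if for each `i` the number `u q ξ_i` is congruent modulo `1` to
a sum `y_{i1} + ⋯ + y_{ir}` of real numbers, then for some `i` and `j` the digits of `y_{ij}` in base
`β_j` change more than `k` times up to the place `N / log β_j`.

For one number (`J = 1`) the factor is `1`; the point for tuples is the uniformity in `q` in the
range of the simultaneous approximation, where each single number `ξ_i` may well have a multiple
`q ξ_i` with no change of digits up to the place `log_b q`.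

Method: the subspace theorem for the vectors `(U u q, U p_1, …, U p_J, U / v_1, …, U / v_l)`, where
the `v_i` are products of powers of the bases; a maximal independent system of the germs of the
variables along an ultrafilter contains `u q` and all `p_i`, because otherwise `u q` is bounded.
-/

set_option autoImplicit false

namespace Pool.Agent.Results.MP_c8ecb2_nt.MultiplesOfTuples

open Finset

/-- the `i`-th digit of `x` after the point in base `b` -/
noncomputable def digit (b : ℕ) (x : ℝ) (i : ℕ) : ℤ := ⌊x * (b : ℝ) ^ i⌋ % (b : ℤ)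

/-- the number of the `i`, `s < i < n`, for which the `i`-th and the `(i + 1)`-st digit of `x` after
the point in base `b` are different -/
noncomputable def changes (b : ℕ) (x : ℝ) (s n : ℕ) : ℕ :=
  ((Ioo s n).filter fun i => digit b x i ≠ digit b x (i + 1)).card

lemma changes_zero (b : ℕ) (x : ℝ) (n : ℕ) :
    (Pool.Agent.Q50.SP.chs b x n).card = changes b x 0 n := by
  unfold changes Pool.Agent.Q50.SP.chs
  congr 1

lemma digit_shift (b : ℕ) (x : ℝ) (s i : ℕ) :
    digit b ((b : ℝ) ^ s * x) i = digit b x (s + i) := by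
  unfold digit
  rw [pow_add]
  congr 2
  ring

lemma changes_shift (b : ℕ) (x : ℝ) (s n : ℕ) :
    changes b ((b : ℝ) ^ s * x) 0 n = changes b x s (s + n) := by
  unfold changes
  refine Finset.card_bij (fun i _ => s + i) ?_ ?_ ?_
  · intro i hi
    rw [mem_filter, mem_Ioo] at hi ⊢
    rw [digit_shift, digit_shift] at hi
    exact ⟨⟨by omega, by omega⟩, hi.2⟩
  · intro i _ j _ h
    exact Nat.add_left_cancel h
  · intro i hi
    rw [mem_filter, mem_Ioo] at hi
    refine ⟨i - s, ?_, by omega⟩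
    rw [mem_filter, mem_Ioo, digit_shift, digit_shift]
    have h1 : s + (i - s) = i := by omega
    have h2 : s + (i - s + 1) = i + 1 := by omega
    rw [h1, h2]
    exact ⟨⟨by omega, by omega⟩, hi.2⟩

/-- `1` and the `ξ j` are linearly independent over `ℚ` -/
def IndependentWithOne {J : ℕ} (ξ : Fin J → ℝ) : Prop :=
  ∀ (d : Fin J → ℚ) (c : ℚ), ∑ j, (d j : ℝ) * ξ j = c → d = 0

/-- the second part -/
theorem part_two (J : ℕ) (hJ : 1 ≤ J) (ξ : Fin J → ℝ) (halg : ∀ i, IsAlgebraic ℚ (ξ i))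
    (hind : IndependentWithOne ξ) (r : ℕ) (β : Fin r → ℕ) (hβ : ∀ j, 2 ≤ β j) (k : ℕ) (δ : ℝ)
    (hδ : 0 < δ) :
    ∃ N₀ : ℝ, ∀ N : ℝ, N₀ ≤ N → ∀ (c : Fin r → ℕ) (q : ℕ), 1 ≤ q →
      δ * Real.log (∏ j, (β j : ℝ) ^ c j) + (1 / J + δ) * Real.log q ≤ N →
      ∀ y : Fin J → Fin r → ℝ,
      (∀ i, ∃ p : ℤ, ∑ j, y i j = (∏ j, (β j : ℝ) ^ c j) * (q * ξ i) + p) →
      ∃ i j, k < changes (β j) (y i j) 0 ⌊N / Real.log (β j)⌋₊ := by
  obtain ⟨N₀, hN₀⟩ := Pool.Agent.Q50.SP.sumsS J hJ ξ halg hind r β hβ k δ hδ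
  refine ⟨N₀, fun N hN c q hq hNq y hy => ?_⟩
  obtain ⟨i, j, hj⟩ := hN₀ N hN c q hq hNq y hy
  exact ⟨i, j, by rw [← changes_zero]; exact hj⟩

/-- the first part -/
theorem part_one (J : ℕ) (hJ : 1 ≤ J) (ξ : Fin J → ℝ) (halg : ∀ i, IsAlgebraic ℚ (ξ i))
    (hind : IndependentWithOne ξ) (b : ℕ) (hb : 2 ≤ b) (k : ℕ) (δ : ℝ) (hδ : 0 < δ) :
    ∃ X₀ : ℝ, ∀ q : ℕ, 1 ≤ q → ∀ s : ℕ, X₀ ≤ s + Real.log q →
      ∃ i, k < changes b (q * ξ i) s
        ⌊(1 + δ) * s + (1 / J + δ) * (Real.log q / Real.log b)⌋₊ := by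
  have hlb : 0 < Real.log b := Real.log_pos (by exact_mod_cast (by omega : 1 < b))
  have hb0 : (0 : ℝ) < b := by positivity
  obtain ⟨N₀, hN₀⟩ := part_two J hJ ξ halg hind 1 (fun _ => b) (fun _ => hb) k δ hδ
  obtain ⟨μ, hμ⟩ : ∃ μ : ℝ, μ = min (δ * Real.log b) δ := ⟨_, rfl⟩
  have hμ0 : 0 < μ := by
    rw [hμ]
    exact lt_min (by positivity) hδ
  refine ⟨|N₀| / μ, fun q hq s hX => ?_⟩
  have hq1 : (1 : ℝ) ≤ q := by exact_mod_cast hq
  have hlq : 0 ≤ Real.log q := Real.log_nonneg hq1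
  have hJ0 : (0 : ℝ) < J := by exact_mod_cast hJ
  obtain ⟨N, hN⟩ : ∃ N : ℝ, N = δ * (s * Real.log b) + (1 / J + δ) * Real.log q := ⟨_, rfl⟩
  have hs0 : (0 : ℝ) ≤ s := Nat.cast_nonneg s
  have hNN : N₀ ≤ N := by
    rw [div_le_iff₀ hμ0] at hX
    have h1 : s * μ ≤ s * (δ * Real.log b) :=
      mul_le_mul_of_nonneg_left (by rw [hμ]; exact min_le_left _ _) hs0
    have h2 : Real.log q * μ ≤ Real.log q * δ :=
      mul_le_mul_of_nonneg_left (by rw [hμ]; exact min_le_right _ _) hlq
    have h3 : 0 ≤ 1 / J * Real.log q := by positivity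
    have h4 := le_abs_self N₀
    rw [hN]
    nlinarith
  obtain ⟨i, j, hj⟩ := hN₀ N hNN (fun _ => s) q hq
    (by
      simp only [Finset.univ_unique, Finset.prod_const, Finset.card_singleton, pow_one,
        Real.log_pow]
      rw [hN])
    (fun i _ => (b : ℝ) ^ s * (q * ξ i))
    (fun i => ⟨0, by simp⟩)
  refine ⟨i, ?_⟩
  rw [changes_shift] at hj
  have e1 : s + ⌊N / Real.log b⌋₊ =
      ⌊(1 + δ) * s + (1 / J + δ) * (Real.log q / Real.log b)⌋₊ := by
    rw [add_comm s, ← Nat.floor_add_natCast]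
    · congr 1
      rw [hN]
      field_simp
      ring
    · rw [hN]
      positivity
  rw [e1] at hj
  exact hj

/-- Let `ξ_1, …, ξ_J`, `J ≥ 1`, be real algebraic numbers which are linearly independent over `ℚ`
together with `1`.

(1) Let `b ≥ 2`, `δ > 0`. For all `q ≥ 1` and `s` with `s + log q ≥ X₀(ξ, b, k, δ)` there is `i` such
that the digit of `q ξ_i` in base `b` changes more than `k` times between the places `s` and
`(1 + δ) s + (1 / J + δ) log_b q`.

(2) Let `β_1, …, β_r ≥ 2`, `δ > 0`. For all large `N`, all `q ≥ 1` and all products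
`u = ∏ β_j ^ c_j` with `δ log u + (1 / J + δ) log q ≤ N`: if the sum of the real numbers
`y_{i1}, …, y_{ir}` is congruent to `u q ξ_i` modulo `1` for every `i`, then for some `i` and `j` the
digits of `y_{ij}` in base `β_j` change more than `k` times up to the place `N / log β_j`. -/
theorem result (J : ℕ) (hJ : 1 ≤ J) (ξ : Fin J → ℝ) (halg : ∀ i, IsAlgebraic ℚ (ξ i))
    (hind : IndependentWithOne ξ) :
    (∀ (b : ℕ) (_ : 2 ≤ b) (k : ℕ) (δ : ℝ), 0 < δ →
      ∃ X₀ : ℝ, ∀ q : ℕ, 1 ≤ q → ∀ s : ℕ, X₀ ≤ s + Real.log q →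
        ∃ i, k < changes b (q * ξ i) s
          ⌊(1 + δ) * s + (1 / J + δ) * (Real.log q / Real.log b)⌋₊) ∧
    ∀ (r : ℕ) (β : Fin r → ℕ) (_ : ∀ j, 2 ≤ β j) (k : ℕ) (δ : ℝ), 0 < δ →
      ∃ N₀ : ℝ, ∀ N : ℝ, N₀ ≤ N → ∀ (c : Fin r → ℕ) (q : ℕ), 1 ≤ q →
        δ * Real.log (∏ j, (β j : ℝ) ^ c j) + (1 / J + δ) * Real.log q ≤ N →
        ∀ y : Fin J → Fin r → ℝ,
        (∀ i, ∃ p : ℤ, ∑ j, y i j = (∏ j, (β j : ℝ) ^ c j) * (q * ξ i) + p) →
        ∃ i j, k < changes (β j) (y i j) 0 ⌊N / Real.log (β j)⌋₊ :=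
  ⟨fun b hb k δ hδ => part_one J hJ ξ halg hind b hb k δ hδ,
    fun r β hβ k δ hδ => part_two J hJ ξ halg hind r β hβ k δ hδ⟩

end Pool.Agent.Results.MP_c8ecb2_nt.MultiplesOfTuples
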