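import Pool.Agent.Q47.TUG.Inst

/-!
# Almost all prime multiples of an independent tuple of algebraic numbers are jointly normal up to a
multiple of `log M` digits

Let `α_1, …, α_r` be real algebraic numbers such that `1, α_1, …, α_r` are linearly independent over
`ℚ`, and let `b_1, …, b_r ≥ 2`, `w`, `A` and `ε > 0` be given. For all but at most `π(M) M ^ (-c)` of the
primes `p ≤ M`, all the `r × k` digit matrices, `k ≤ w`, whose rows are words of `k` digits of
`p α_1 + y_1, …, p α_r + y_r` in the bases `b_1, …, b_r`, stand with the right frequency in all windows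
inside the first `A log M` digits; the windows of the different rows may start at different places.
-/

set_option autoImplicit false

namespace Pool.Agent.Results.MP_c8ecb2_nt.PrimeMultiplesOfTuples

/-- the word of the `k` digits in base `b` of `x` which follow the first `n` digits after the point,
read as an integer between `0` and `b ^ k - 1` -/
noncomputable def word (b k n : ℕ) (x : ℝ) : ℕ :=
  ⌊(b : ℝ) ^ k * Int.fract ((b : ℝ) ^ n * x)⌋₊

open Classical in
/-- Let `α j`, `j < r`, be real algebraic numbers such that `∑ c j α j` is irrational for every nonzero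
integer vector `c` (so `1, α_1, …, α_r` are linearly independent over `ℚ`). Let bases `b j ≥ 2`,
`j < r`, and `w`, `A` and `ε > 0` be given. There are `c > 0` and `M₀` such that for all `M ≥ M₀` and all
real vectors `y`, all but at most `π(M) M ^ (-c)` of the primes `p ≤ M` have the following property:
for every tuple `D` of words of `k ≤ w` digits (`D j` in base `b j`), all starting places `s j` and all
`N` with `s j + N ≤ A log M` for all `j`, the number of the `i < N` such that for every `j` the word of
`k` digits in base `b j` after the first `s j + i` digits of `p α j + y j` is `D j` differs from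
`N / ∏ j, b j ^ k` by at most `ε log M`. -/
theorem result (r : ℕ) (hr : 1 ≤ r) (α : Fin r → ℝ) (halg : ∀ j, IsAlgebraic ℚ (α j))
    (hind : ∀ c : Fin r → ℤ, c ≠ 0 → Irrational (∑ j, (c j : ℝ) * α j)) (b : Fin r → ℕ)
    (hb : ∀ j, 2 ≤ b j) (w : ℕ) (A ε : ℝ) (hε : 0 < ε) :
    ∃ c : ℝ, 0 < c ∧ ∃ M₀ : ℕ, ∀ M : ℕ, M₀ ≤ M → ∀ y : Fin r → ℝ,
      (((Finset.Icc 1 M).filter (fun p : ℕ => p.Prime ∧
        ¬ ∀ (k : ℕ) (D s : Fin r → ℕ) (N : ℕ), 1 ≤ k → k ≤ w → (∀ j, D j < b j ^ k) →
        (∀ j, (s j : ℝ) + N ≤ A * Real.log M) →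
        |(((Finset.range N).filter (fun i =>
            ∀ j, word (b j) k (s j + i) (p * α j + y j) = D j)).card : ℝ) -
          N / ∏ j, (b j : ℝ) ^ k| ≤ ε * Real.log M)).card : ℝ) ≤
        Nat.primeCounting M * (M : ℝ) ^ (-c) := by
  obtain ⟨κ, hκ, h⟩ := Pool.Agent.Q47.TUG.normal_gen (ι := ℕ) hr α halg hind hb w A ε hε
  obtain ⟨κ', hκ', M1, hmin⟩ := Pool.Agent.Q47.TUG.prime_Minor (r := r) κ hκ
  obtain ⟨c, hc, M₀, h⟩ := h _ κ' M1 hκ' hmin
  refine ⟨c, hc, M₀, fun M hM y => ?_⟩
  have hcard : (((Finset.Icc 1 M).filter (fun p : ℕ => p.Prime)).card : ℝ) =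
      Nat.primeCounting M := by
    rw [← Nat.primesLE_card_eq_primeCounting]
    congr 2
    ext p
    simp only [Nat.mem_primesLE, Finset.mem_filter, Finset.mem_Icc]
    constructor
    · rintro ⟨⟨_, h1⟩, h2⟩; exact ⟨h1, h2⟩
    · rintro ⟨h1, h2⟩; exact ⟨⟨h2.one_le, h1⟩, h2⟩
  have h1 := h M hM _ ⟨y, rfl⟩
  simp only at h1
  rw [hcard] at h1
  refine le_trans (le_of_eq ?_) h1
  rw [Finset.filter_filter]
  congr 2
  refine Finset.filter_congr fun m _ => ?_
  rw [and_congr_right_iff]
  intro _
  rw [not_iff_not]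
  refine forall_congr' fun k => forall_congr' fun D => forall_congr' fun s => forall_congr' fun N =>
    forall_congr' fun _ => forall_congr' fun _ => forall_congr' fun _ => forall_congr' fun _ => ?_
  have h1 : (∏ j, (b j : ℝ) ^ k) = ((∏ j, b j : ℕ) : ℝ) ^ k := by
    rw [Finset.prod_pow]
    push_cast
    rfl
  have h2 : (Finset.range N).filter (fun i =>
      ∀ j, word (b j) k (s j + i) (m * α j + y j) = D j) =
      (Finset.range N).filter (fun i => Pool.Agent.Y951.TU.tw b k (fun j => s j + i)
        (Pool.Agent.Q47.TUG.pt α (fun p : ℕ => (p:ℤ)) (fun _ => y) m) = D) := by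
    refine Finset.filter_congr fun i _ => ?_
    rw [funext_iff]
    unfold Pool.Agent.Q47.TUG.pt
    simp only [Int.cast_natCast]
    rfl
  rw [h1, h2]

end Pool.Agent.Results.MP_c8ecb2_nt.PrimeMultiplesOfTuples
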