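import Pool.Agent.Q47.TUG.Inst

/-!
# Joint normality of `a c (α_1, …, α_r)` for the products `a c` of two arbitrary dense sets

Let `α_1, …, α_r` be real algebraic numbers such that `1, α_1, …, α_r` are linearly independent over
`ℚ`, and let `b_1, …, b_r ≥ 2`, `w`, `A` and `ε > 0` be given. There is `c > 0` such that for arbitrary
sets `P`, `Q` of integers up to `M` with `|P| |Q| ≥ M ^ (2 - c)` and arbitrary real vectors `u a`,
`v a'`, for all but few of the pairs `(a, a')` of `P × Q` all the `r × k` digit matrices of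
`u a + v a' + a a' (α_1, …, α_r)`, `k ≤ w`, stand with the right frequency in all windows inside the
first `A log M` digits; the windows of the different rows may start at different places.
-/

set_option autoImplicit false

namespace Pool.Agent.Results.MP_c8ecb2_nt.ProductsOfDenseSets

/-- the word of the `k` digits in base `b` of `x` which follow the first `n` digits after the point,
read as an integer between `0` and `b ^ k - 1` -/
noncomputable def word (b k n : ℕ) (x : ℝ) : ℕ :=
  ⌊(b : ℝ) ^ k * Int.fract ((b : ℝ) ^ n * x)⌋₊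

open Classical in
/-- Let `α j`, `j < r`, be real algebraic numbers such that `∑ c j α j` is irrational for every nonzero
integer vector `c` (so `1, α_1, …, α_r` are linearly independent over `ℚ`). Let bases `b j ≥ 2`,
`j < r`, and `w`, `A` and `ε > 0` be given. There are `c > 0` and `M₀` such that for all `M ≥ M₀`, all
sets `P`, `Q` of integers between `1` and `M` with `|P| |Q| ≥ M ^ (2 - c)` and all sequences `u`, `v` of
real vectors, all but at most `|P| |Q| M ^ (-c)` of the pairs `(a, a')` in `P × Q` have the following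
property: for every tuple `D` of words of `k ≤ w` digits (`D j` in base `b j`), all starting places
`s j` and all `N` with `s j + N ≤ A log M` for all `j`, the number of the `i < N` such that for every `j`
the word of `k` digits in base `b j` after the first `s j + i` digits of `a a' α j + (u a j + v a' j)`
is `D j` differs from `N / ∏ j, b j ^ k` by at most `ε log M`. -/
theorem result (r : ℕ) (hr : 1 ≤ r) (α : Fin r → ℝ) (halg : ∀ j, IsAlgebraic ℚ (α j))
    (hind : ∀ c : Fin r → ℤ, c ≠ 0 → Irrational (∑ j, (c j : ℝ) * α j)) (b : Fin r → ℕ)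
    (hb : ∀ j, 2 ≤ b j) (w : ℕ) (A ε : ℝ) (hε : 0 < ε) :
    ∃ c : ℝ, 0 < c ∧ ∃ M₀ : ℕ, ∀ M : ℕ, M₀ ≤ M → ∀ P Q : Finset ℕ,
      (∀ a ∈ P, 1 ≤ a ∧ a ≤ M) → (∀ a ∈ Q, 1 ≤ a ∧ a ≤ M) →
      (M : ℝ) ^ (2 - c) ≤ (P.card : ℝ) * Q.card → ∀ u v : ℕ → Fin r → ℝ,
      (((P ×ˢ Q).filter (fun m : ℕ × ℕ =>
        ¬ ∀ (k : ℕ) (D s : Fin r → ℕ) (N : ℕ), 1 ≤ k → k ≤ w → (∀ j, D j < b j ^ k) →
        (∀ j, (s j : ℝ) + N ≤ A * Real.log M) →
        |(((Finset.range N).filter (fun i =>
            ∀ j, word (b j) k (s j + i)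
              (((m.1 * m.2 : ℕ) : ℝ) * α j + (u m.1 j + v m.2 j)) = D j)).card : ℝ) -
          N / ∏ j, (b j : ℝ) ^ k| ≤ ε * Real.log M)).card : ℝ) ≤
        (P.card : ℝ) * Q.card * (M : ℝ) ^ (-c) := by
  obtain ⟨κ, hκ, h⟩ := Pool.Agent.Q47.TUG.normal_gen (ι := ℕ × ℕ) hr α halg hind hb w A ε hε
  obtain ⟨κ', hκ', δ, hδ, hmin⟩ := Pool.Agent.Q47.TUG.prod_Minor (r := r) κ hκ
  obtain ⟨M1, hmin⟩ := hmin δ le_rfl
  obtain ⟨c0, hc0, M₀, h⟩ := h _ κ' M1 hκ' hmin
  refine ⟨min c0 δ, lt_min hc0 hδ, max M₀ 1, fun M hM P Q hP hQ hPQ u v => ?_⟩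
  have hM1 : (1:ℝ) ≤ M := by exact_mod_cast (le_max_right _ _).trans hM
  have h1 := h M ((le_max_left _ _).trans hM) _ ⟨P, Q, hP, hQ,
    (Real.rpow_le_rpow_of_exponent_le hM1 (by linarith [min_le_right c0 δ])).trans hPQ, u, v, rfl⟩
  simp only at h1
  have h3 : ((P ×ˢ Q).card : ℝ) * (M : ℝ) ^ (-c0) ≤
      (P.card : ℝ) * Q.card * (M : ℝ) ^ (-(min c0 δ)) := by
    rw [Finset.card_product, Nat.cast_mul]
    apply mul_le_mul_of_nonneg_left _ (by positivity)
    exact Real.rpow_le_rpow_of_exponent_le hM1 (by linarith [min_le_left c0 δ])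
  refine le_trans (le_of_eq ?_) (h1.trans h3)
  congr 2
  refine Finset.filter_congr fun m _ => ?_
  rw [not_iff_not]
  refine forall_congr' fun k => forall_congr' fun D => forall_congr' fun s => forall_congr' fun N =>
    forall_congr' fun _ => forall_congr' fun _ => forall_congr' fun _ => forall_congr' fun _ => ?_
  have h1 : (∏ j, (b j : ℝ) ^ k) = ((∏ j, b j : ℕ) : ℝ) ^ k := by
    rw [Finset.prod_pow]
    push_cast
    rfl
  have h2 : (Finset.range N).filter (fun i =>
      ∀ j, word (b j) k (s j + i)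
        (((m.1 * m.2 : ℕ) : ℝ) * α j + (u m.1 j + v m.2 j)) = D j) =
      (Finset.range N).filter (fun i => Pool.Agent.Y951.TU.tw b k (fun j => s j + i)
        (Pool.Agent.Q47.TUG.pt α (fun i : ℕ × ℕ => ((i.1 * i.2 : ℕ):ℤ))
          (fun i : ℕ × ℕ => u i.1 + v i.2) m) = D) := by
    refine Finset.filter_congr fun i _ => ?_
    rw [funext_iff]
    unfold Pool.Agent.Q47.TUG.pt
    simp only [Int.cast_natCast, Pi.add_apply]
    rfl
  rw [h1, h2]

end Pool.Agent.Results.MP_c8ecb2_nt.ProductsOfDenseSets
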